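import Pool.Agent.Helper44.MM.M2
import Pool.Agent.Helper22.AM.Defs

/-!
# From the majorants of MM to the ones of AM (MP_fb29e9_nt)

`G(R) = min (500 4^n) ((20^(2J) ∫ k0 Maj)^(1/(2J)))` is continuous in `R` and dominates the mean of the exponential sum for all centres.
-/

open MeasureTheory Real Set Filter Topology

set_option autoImplicit false

namespace Pool.Agent.Helper85.MM

open Pool.Agent.Helper22.AE
open Pool.Agent.Helper92.MM
open Pool.Agent.Helper92.GC (dt sqa)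
open Pool.Agent.Helper60.AD

private lemma gd1_compact : IsCompact gd1 := isCompact_Icc.inter_right (isClosed_le continuous_const (by fun_prop))

private lemma Sc_triv (h : ℝ → ℝ) (B : Finset (ℤ × ℤ)) (b : ℤ × ℤ → ℂ) (hb : ∀ k, ‖b k‖ ≤ 1) (R α : ℝ) (c : ℝ × ℝ) :
    ‖Sc h B b R α c‖ ≤ B.card := by
  unfold Sc
  refine (norm_sum_le _ _).trans ((Finset.sum_le_card_nsmul _ _ 1 (fun k _ => ?_)).trans (le_of_eq (by rw [nsmul_eq_mul, mul_one])))
  rw [norm_mul, norm_mul, ee_norm, ee_norm, mul_one, mul_one]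
  exact hb k

private lemma Um_triv (h : ℝ → ℝ) (n : ℕ) (b : ℝ → ℤ × ℤ → ℂ) (hb : ∀ α k, ‖b α k‖ ≤ 1) {β : ℝ} (hβ : 0 < β) (R : ℝ) (c : ℝ × ℝ) :
    Pool.Agent.Helper22.AM.Um h n b β R c ≤ 500 * 4 ^ n := by
  have hc := k0_cont' hβ
  have hk0 := fun α => k0_nonneg' hβ α
  have h1 : Pool.Agent.Helper22.AM.Um h n b β R c ≤ ∫ α in gd1, k0 β α * (25 * 4 ^ n) := by
    unfold Pool.Agent.Helper22.AM.Um
    refine integral_mono_of_nonneg (ae_of_all _ fun α => mul_nonneg (hk0 α) (norm_nonneg _)) ?_ (ae_of_all _ fun α => ?_)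
    · exact (hc.mul continuous_const).continuousOn.integrableOn_compact gd1_compact
    · exact mul_le_mul_of_nonneg_left ((Sc_triv h (blk n) (b α) (hb α) R α c).trans (blk_card n)) (hk0 α)
  rw [integral_mul_const] at h1
  have h2 := Pool.Agent.Helper44.MM.k0_gd1 hβ
  have h3 : (0 : ℝ) ≤ 25 * 4 ^ n := by positivity
  nlinarith [mul_le_mul_of_nonneg_right h2 h3]

private lemma F_cont {L : ℕ} (J M m n : ℕ) {H₀ : ℝ → ℝ} (h0 : ContDiff ℝ 2 H₀) {β : ℝ} (hβ : 0 < β) (b : ℝ → ℤ × ℤ → ℂ)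
    (hbc : ∀ k, Continuous (fun α => b α k)) (w : (Fin L → ℝ) × (Fin L → ℝ)) :
    Continuous (fun R : ℝ => ∫ α in gd1, k0 β α * Maj J M m (Hw H₀ w) n (b α) R α) := by
  refine continuous_parametric_integral_of_continuous (f := fun R α => k0 β α * Maj J M m (Hw H₀ w) n (b α) R α) ?_ gd1_compact
  have h1 : Continuous (fun q : ℝ × ℝ => (q, w)) := by fun_prop
  have h2 := (Pool.Agent.Helper44.MM.Maj_cont (L := L) J M m n h0 b hbc).comp h1
  exact ((k0_cont' hβ).comp continuous_snd).mul h2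

/-- AM-majorants from the ones of MM -/
theorem maj_of {L J M m n : ℕ} (hJ : 1 ≤ J) {H₀ : ℝ → ℝ} (h0 : ContDiff ℝ 2 H₀) {β : ℝ} (hβ : 0 < β)
    (b : ℝ → ℤ × ℤ → ℂ) (hbc : ∀ k, Continuous (fun α => b α k)) (hb : ∀ α k, ‖b α k‖ ≤ 1)
    (w : (Fin L → ℝ) × (Fin L → ℝ))
    (hmaj : ∀ R α c, ‖Sc (Hw H₀ w) (blk n) (b α) R α c‖ ^ (2 * J) ≤ Maj J M m (Hw H₀ w) n (b α) R α)
    {R₀ A : ℝ} (hA : 20 ^ (2 * J) * ∫ R in Icc (R₀ / 2) (4 * R₀), ∫ α in gd1, k0 β α * Maj J M m (Hw H₀ w) n (b α) R α ≤ A) :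
    Pool.Agent.Helper22.AM.Maj (Hw H₀ w) n b β R₀ (2 * J) A := by
  have hk0 := fun α => k0_nonneg' hβ α
  have hF := F_cont J M m n h0 hβ b hbc w
  have hM0 : ∀ R α, 0 ≤ Maj J M m (Hw H₀ w) n (b α) R α := fun R α => (pow_nonneg (norm_nonneg _) _).trans (hmaj R α (0, 0))
  have hF0 : ∀ R : ℝ, 0 ≤ ∫ α in gd1, k0 β α * Maj J M m (Hw H₀ w) n (b α) R α := fun R =>
    setIntegral_nonneg Pool.Agent.Helper44.MM.gd1_meas fun α _ => mul_nonneg (hk0 α) (hM0 R α)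
  have hJ2 : 2 * J ≠ 0 := by omega
  have hG : Continuous (fun R : ℝ => min (500 * 4 ^ n : ℝ)
      ((20 ^ (2 * J) * ∫ α in gd1, k0 β α * Maj J M m (Hw H₀ w) n (b α) R α) ^ (((2 * J : ℕ) : ℝ)⁻¹))) :=
    continuous_const.min ((continuous_const.mul hF).rpow_const fun R => Or.inr (by positivity))
  have hG0 : ∀ R : ℝ, 0 ≤ min (500 * 4 ^ n : ℝ)
      ((20 ^ (2 * J) * ∫ α in gd1, k0 β α * Maj J M m (Hw H₀ w) n (b α) R α) ^ (((2 * J : ℕ) : ℝ)⁻¹)) := fun R =>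
    le_min (by positivity) (Real.rpow_nonneg (mul_nonneg (by positivity) (hF0 R)) _)
  refine ⟨_, hG.measurable, fun R => ⟨hG0 R, min_le_left _ _⟩, fun R _ c => le_min (Um_triv _ _ _ hb hβ R c) ?_, ?_⟩
  · have h1 := Pool.Agent.Helper44.MM.Z_pow_of hJ h0 hβ b hbc w R c (fun α => hmaj R α c)
    have h2 : 0 ≤ Pool.Agent.Helper22.AM.Um (Hw H₀ w) n b β R c :=
      setIntegral_nonneg Pool.Agent.Helper44.MM.gd1_meas fun α _ => mul_nonneg (hk0 α) (norm_nonneg _)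
    have h3 : Pool.Agent.Helper22.AM.Um (Hw H₀ w) n b β R c =
        (Pool.Agent.Helper22.AM.Um (Hw H₀ w) n b β R c ^ (2 * J)) ^ (((2 * J : ℕ) : ℝ)⁻¹) := (Real.pow_rpow_inv_natCast h2 hJ2).symm
    rw [h3]
    exact Real.rpow_le_rpow (by positivity) h1 (by positivity)
  · refine le_trans ?_ hA
    rw [← integral_const_mul]
    refine setIntegral_mono_on ((hG.pow _).continuousOn.integrableOn_compact isCompact_Icc)
      ((continuous_const.mul hF).continuousOn.integrableOn_compact isCompact_Icc) measurableSet_Icc fun R _ => ?_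
    have h4 := pow_le_pow_left₀ (hG0 R) (min_le_right _ _) (2 * J)
    rwa [Real.rpow_inv_natCast_pow (mul_nonneg (by positivity) (hF0 R)) hJ2] at h4

/-- AM-majorants from a continuous majorant of the power (the form of MM-M6, `hW`) -/
theorem maj_of_W (h : ℝ → ℝ) {n J : ℕ} (hJ : 1 ≤ J) (b : ℝ → ℤ × ℤ → ℂ) (hb : ∀ α k, ‖b α k‖ ≤ 1) {β : ℝ} (hβ : 0 < β) {R₀ A : ℝ}
    (hW : ∃ W : ℝ → ℝ, Continuous W ∧ (∀ R, 0 ≤ W R) ∧ (∀ R ∈ Icc (R₀ / 2) (4 * R₀), ∀ c : ℝ × ℝ,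
      (∫ α in gd1, k0 β α * ‖Sc h (blk n) (b α) R α c‖) ^ (2 * J) ≤ W R) ∧ ∫ R in Icc (R₀ / 2) (4 * R₀), W R ≤ A) :
    Pool.Agent.Helper22.AM.Maj h n b β R₀ (2 * J) A := by
  obtain ⟨W, hWc, hW0, hWm, hWA⟩ := hW
  have hk0 := fun α => k0_nonneg' hβ α
  have hJ2 : 2 * J ≠ 0 := by omega
  have hG : Continuous (fun R : ℝ => min (500 * 4 ^ n : ℝ) (W R ^ (((2 * J : ℕ) : ℝ)⁻¹))) :=
    continuous_const.min (hWc.rpow_const fun R => Or.inr (by positivity))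
  have hG0 : ∀ R : ℝ, 0 ≤ min (500 * 4 ^ n : ℝ) (W R ^ (((2 * J : ℕ) : ℝ)⁻¹)) := fun R =>
    le_min (by positivity) (Real.rpow_nonneg (hW0 R) _)
  refine ⟨_, hG.measurable, fun R => ⟨hG0 R, min_le_left _ _⟩, fun R hR c => le_min (Um_triv _ _ _ hb hβ R c) ?_, ?_⟩
  · have h1 := hWm R hR c
    have h2 : 0 ≤ Pool.Agent.Helper22.AM.Um h n b β R c :=
      setIntegral_nonneg Pool.Agent.Helper44.MM.gd1_meas fun α _ => mul_nonneg (hk0 α) (norm_nonneg _)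
    have h3 : Pool.Agent.Helper22.AM.Um h n b β R c =
        (Pool.Agent.Helper22.AM.Um h n b β R c ^ (2 * J)) ^ (((2 * J : ℕ) : ℝ)⁻¹) := (Real.pow_rpow_inv_natCast h2 hJ2).symm
    rw [h3]
    exact Real.rpow_le_rpow (by positivity) h1 (by positivity)
  · refine le_trans ?_ hWA
    refine setIntegral_mono_on ((hG.pow _).continuousOn.integrableOn_compact isCompact_Icc)
      (hWc.continuousOn.integrableOn_compact isCompact_Icc) measurableSet_Icc fun R _ => ?_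
    have h4 := pow_le_pow_left₀ (hG0 R) (min_le_right _ _) (2 * J)
    rwa [Real.rpow_inv_natCast_pow (hW0 R) hJ2] at h4

end Pool.Agent.Helper85.MM
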