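import Pool.Agent.Helper92.MM.Defs
import Pool.Agent.Helper22.AE.F2

/-!
# MM-M8 (MP_fb29e9_nt): the random series, from the finite theorem and the measurability of the exceptional set

`small_mom`: the moments of order `J ≤ 3` from the one of order `3`: `y^(2J) ≤ X^J (1 + (y²/X)^3)`. `main_ser_M_of`: as AD-A12; only finitely many
coefficients must be nonzero for a given `J`.
-/

open MeasureTheory Real Set Filter Topology unitInterval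

set_option autoImplicit false

namespace Pool.Agent.Helper85.MM

open Pool.Agent.Helper22.AE
open Pool.Agent.Helper22.AC (cntc)
open Pool.Agent.Helper92.MM

private lemma pow_le_one_add {t : ℝ} (ht : 0 ≤ t) {J : ℕ} (hJ : J ≤ 3) : t ^ J ≤ 1 + t ^ 3 := by
  rcases le_total t 1 with h | h
  · have h1 : t ^ J ≤ 1 := pow_le_one₀ ht h
    have h2 : 0 ≤ t ^ 3 := by positivity
    linarith
  · have h1 : t ^ J ≤ t ^ 3 := pow_le_pow_right₀ h hJ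
    linarith

private lemma pt_small {y X : ℝ} (hX : 1 ≤ X) {J : ℕ} (hJ : J ≤ 3) :
    |y| ^ (2 * J) ≤ X ^ J + X ^ J / X ^ 3 * |y| ^ (2 * 3) := by
  have hX0 : 0 < X := by linarith
  have h := pow_le_one_add (t := |y| ^ 2 / X) (by positivity) hJ
  have h2 : |y| ^ (2 * J) = X ^ J * (|y| ^ 2 / X) ^ J := by
    rw [pow_mul, div_pow]
    field_simp
  have h3 : X ^ J / X ^ 3 * |y| ^ (2 * 3) = X ^ J * (|y| ^ 2 / X) ^ 3 := by
    rw [pow_mul, div_pow]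
    field_simp
  rw [h2, h3]
  have h4 := mul_le_mul_of_nonneg_left h (by positivity : (0 : ℝ) ≤ X ^ J)
  linarith

theorem small_mom {H : ℝ → ℝ} (h : ∃ C : ℝ, ∀ X : ℝ, 1 ≤ X → mom 3 H X ≤ ENNReal.ofReal (C * X ^ (1 + 3))) {J : ℕ} (hJ : J ≤ 3) :
    ∃ C : ℝ, ∀ X : ℝ, 1 ≤ X → mom J H X ≤ ENNReal.ofReal (C * X ^ (1 + J)) := by
  obtain ⟨C, hC⟩ := h
  refine ⟨1 + |C|, fun X hX => ?_⟩
  have hX0 : 0 < X := by linarith
  have h1 : mom J H X ≤ ∫⁻ R in Icc X (2 * X), (ENNReal.ofReal (X ^ J) + ENNReal.ofReal (X ^ J / X ^ 3) *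
      ⨆ c : ℝ × ℝ, ENNReal.ofReal (|cntc H c R - area H * R ^ 2| ^ (2 * 3))) := by
    refine lintegral_mono fun R => iSup_le fun c => ?_
    have e1 := pt_small (y := cntc H c R - area H * R ^ 2) hX hJ
    calc ENNReal.ofReal (|cntc H c R - area H * R ^ 2| ^ (2 * J))
        ≤ ENNReal.ofReal (X ^ J + X ^ J / X ^ 3 * |cntc H c R - area H * R ^ 2| ^ (2 * 3)) := ENNReal.ofReal_le_ofReal e1
      _ = ENNReal.ofReal (X ^ J) + ENNReal.ofReal (X ^ J / X ^ 3) * ENNReal.ofReal (|cntc H c R - area H * R ^ 2| ^ (2 * 3)) := by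
          rw [ENNReal.ofReal_add (by positivity) (by positivity), ENNReal.ofReal_mul (by positivity)]
      _ ≤ _ := by
          gcongr
          exact le_iSup (fun c : ℝ × ℝ => ENNReal.ofReal (|cntc H c R - area H * R ^ 2| ^ (2 * 3))) c
  refine h1.trans ?_
  rw [lintegral_add_left measurable_const, lintegral_const_mul' _ _ ENNReal.ofReal_ne_top, lintegral_const,
    Measure.restrict_apply MeasurableSet.univ, univ_inter, Real.volume_Icc, ← ENNReal.ofReal_mul (by positivity)]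
  have h2 : ENNReal.ofReal (X ^ J / X ^ 3) * mom 3 H X ≤ ENNReal.ofReal (X ^ J / X ^ 3) * ENNReal.ofReal (|C| * X ^ (1 + 3)) := by
    gcongr
    refine (hC X hX).trans (ENNReal.ofReal_le_ofReal ?_)
    exact mul_le_mul_of_nonneg_right (le_abs_self C) (by positivity)
  refine (add_le_add_right h2 _).trans ?_
  rw [← ENNReal.ofReal_mul (by positivity), ← ENNReal.ofReal_add (mul_nonneg (by positivity) (by linarith)) (by positivity)]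
  refine ENNReal.ofReal_le_ofReal (le_of_eq ?_)
  field_simp
  ring

/-- for a fixed `J ≥ 3` only the first `L₀ J` coefficients must be nonzero; for `J < 3` the first `L₀ 3` -/
theorem main_ser_M_of'
    (fin : ∀ {J : ℕ}, 3 ≤ J → ∃ L₀ : ℕ, ∀ L : ℕ, L₀ ≤ L → ∀ {H₀ : ℝ → ℝ}, ContDiff ℝ 2 H₀ →
      Function.Periodic H₀ (2 * π) →
      ∀ᵐ w : (Fin L → ℝ) × (Fin L → ℝ), (∀ θ, 0 < Hw H₀ w θ + deriv (deriv (Hw H₀ w)) θ) →
        ∃ C : ℝ, ∀ X : ℝ, 1 ≤ X → mom J (Hw H₀ w) X ≤ ENNReal.ofReal (C * X ^ (1 + J)))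
    (meas : ∀ {J : ℕ} {H₀ : ℝ → ℝ}, ContDiff ℝ 2 H₀ → Function.Periodic H₀ (2 * π) → ∀ {s : ℕ → ℝ},
      Summable (fun l : ℕ => (l : ℝ) ^ 2 * |s l|) →
      MeasurableSet {x : ℕ → I × I | (∀ θ, 0 < Hx H₀ s x θ + deriv (deriv (Hx H₀ s x)) θ) →
        ∃ C : ℝ, ∀ X : ℝ, 1 ≤ X → mom J (Hx H₀ s x) X ≤ ENNReal.ofReal (C * X ^ (1 + J))}) :
    ∃ L₀ : ℕ → ℕ, ∀ {H₀ : ℝ → ℝ}, ContDiff ℝ 2 H₀ → Function.Periodic H₀ (2 * π) → ∀ {s : ℕ → ℝ},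
      Summable (fun l : ℕ => (l : ℝ) ^ 2 * |s l|) →
      ∀ᵐ x ∂(Measure.infinitePi fun _ : ℕ => (volume : Measure (I × I))),
        (∀ θ, 0 < Hx H₀ s x θ + deriv (deriv (Hx H₀ s x)) θ) →
        ∀ J : ℕ, (∀ l < L₀ J, s l ≠ 0) → ∃ C : ℝ, ∀ X : ℝ, 1 ≤ X → mom J (Hx H₀ s x) X ≤ ENNReal.ofReal (C * X ^ (1 + J)) := by
  have hfin : ∀ J : ℕ, ∃ L₀ : ℕ, ∀ L : ℕ, L₀ ≤ L → ∀ {H₀ : ℝ → ℝ}, ContDiff ℝ 2 H₀ →
      Function.Periodic H₀ (2 * π) →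
      ∀ᵐ w : (Fin L → ℝ) × (Fin L → ℝ), (∀ θ, 0 < Hw H₀ w θ + deriv (deriv (Hw H₀ w)) θ) →
        ∃ C : ℝ, ∀ X : ℝ, 1 ≤ X → mom J (Hw H₀ w) X ≤ ENNReal.ofReal (C * X ^ (1 + J)) := by
    intro J
    rcases le_total 3 J with h3 | h3
    · exact fin h3
    · obtain ⟨L₀, hL₀⟩ := fin (le_refl 3)
      refine ⟨L₀, fun L hL H₀ h0 hp => ?_⟩
      filter_upwards [hL₀ L hL h0 hp] with w hw hr
      exact small_mom (hw hr) h3
  choose L₀ hL₀ using hfin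
  refine ⟨L₀, fun {H₀} h0 hp {s} hs => ?_⟩
  have key : ∀ J : ℕ, (∀ l < L₀ J, s l ≠ 0) →
      ∀ᵐ x ∂(Measure.infinitePi fun _ : ℕ => (volume : Measure (I × I))),
        (∀ θ, 0 < Hx H₀ s x θ + deriv (deriv (Hx H₀ s x)) θ) →
        ∃ C : ℝ, ∀ X : ℝ, 1 ≤ X → mom J (Hx H₀ s x) X ≤ ENNReal.ofReal (C * X ^ (1 + J)) := by
    intro J hsL
    refine ae_cmb (L₀ J) (meas (J := J) h0 hp hs) ?_
    intro t
    obtain ⟨H₁, h1, h1p, hH⟩ := Hx_cmb h0 hp hs (L₀ J) t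
    have hm := hL₀ J (L₀ J) le_rfl h1 h1p
    have hh := head_ae (s := fun l : Fin (L₀ J) => s l) (fun l => hsL l l.2) hm
    filter_upwards [hh] with q hq
    show (∀ θ, 0 < Hx H₀ s (cmb (L₀ J) q t) θ + deriv (deriv (Hx H₀ s (cmb (L₀ J) q t))) θ) → _
    rw [hH q]
    exact hq
  have hall : ∀ᵐ x ∂(Measure.infinitePi fun _ : ℕ => (volume : Measure (I × I))), ∀ J : ℕ, (∀ l < L₀ J, s l ≠ 0) →
      (∀ θ, 0 < Hx H₀ s x θ + deriv (deriv (Hx H₀ s x)) θ) →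
      ∃ C : ℝ, ∀ X : ℝ, 1 ≤ X → mom J (Hx H₀ s x) X ≤ ENNReal.ofReal (C * X ^ (1 + J)) := by
    rw [ae_all_iff]
    intro J
    by_cases h2 : ∀ l < L₀ J, s l ≠ 0
    · filter_upwards [key J h2] with x hx _
      exact hx
    · filter_upwards with x h
      exact absurd h h2
  filter_upwards [hall] with x hx hr J hJ
  exact hx J hJ hr

theorem main_ser_M_of
    (fin : ∀ {J : ℕ}, 3 ≤ J → ∃ L₀ : ℕ, ∀ L : ℕ, L₀ ≤ L → ∀ {H₀ : ℝ → ℝ}, ContDiff ℝ 2 H₀ →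
      Function.Periodic H₀ (2 * π) →
      ∀ᵐ w : (Fin L → ℝ) × (Fin L → ℝ), (∀ θ, 0 < Hw H₀ w θ + deriv (deriv (Hw H₀ w)) θ) →
        ∃ C : ℝ, ∀ X : ℝ, 1 ≤ X → mom J (Hw H₀ w) X ≤ ENNReal.ofReal (C * X ^ (1 + J)))
    (meas : ∀ {J : ℕ} {H₀ : ℝ → ℝ}, ContDiff ℝ 2 H₀ → Function.Periodic H₀ (2 * π) → ∀ {s : ℕ → ℝ},
      Summable (fun l : ℕ => (l : ℝ) ^ 2 * |s l|) →
      MeasurableSet {x : ℕ → I × I | (∀ θ, 0 < Hx H₀ s x θ + deriv (deriv (Hx H₀ s x)) θ) →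
        ∃ C : ℝ, ∀ X : ℝ, 1 ≤ X → mom J (Hx H₀ s x) X ≤ ENNReal.ofReal (C * X ^ (1 + J))})
    {H₀ : ℝ → ℝ} (h0 : ContDiff ℝ 2 H₀) (hp : Function.Periodic H₀ (2 * π)) {s : ℕ → ℝ}
    (hs : Summable (fun l : ℕ => (l : ℝ) ^ 2 * |s l|)) (hs0 : ∀ l, s l ≠ 0) :
    ∀ᵐ x ∂(Measure.infinitePi fun _ : ℕ => (volume : Measure (I × I))),
      (∀ θ, 0 < Hx H₀ s x θ + deriv (deriv (Hx H₀ s x)) θ) →
      ∀ J : ℕ, ∃ C : ℝ, ∀ X : ℝ, 1 ≤ X → mom J (Hx H₀ s x) X ≤ ENNReal.ofReal (C * X ^ (1 + J)) := by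
  obtain ⟨L₀, h⟩ := main_ser_M_of' fin meas
  filter_upwards [h h0 hp hs] with x hx hr J
  exact hx hr J fun l _ => hs0 l

end Pool.Agent.Helper85.MM
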